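import Pool.Agent.helper82.VD.SpecJ

set_option autoImplicit false

open Pool.Agent.VD Pool.Agent.VDE MeasureTheory Filter Set Topology
open scoped ENNReal

namespace Pool.Agent.VDG

noncomputable section

theorem GD1_BB {S : Type} (d : S → S → ℝ) (f : ℝ → S → S) {T T' ε ε' : ℝ} (x : S) (hT : T' ≤ T) (hε : ε ≤ ε') :
    BB d f T x ε ⊆ BB d f T' x ε' :=
  fun _ hy s hs => (hy s ⟨hs.1, hs.2.trans hT⟩).trans hε

theorem GD1_t1 {m : ℕ} (B : Set (EE m)) (c : EE m) : volume {a : EE m | a - c ∈ B} = volume B := by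
  have iEE : (volume : Measure (EE m)).IsAddHaarMeasure :=
    (inferInstance : ((volume : Measure (EuclideanSpace ℝ (Fin m))).prod (volume : Measure (EuclideanSpace ℝ (Fin m)))).IsAddHaarMeasure)
  have h := measure_preimage_add_right (volume : Measure (EE m)) (-c) B
  simp only [← sub_eq_add_neg] at h
  exact h

theorem GD1_t2 {m : ℕ} (B : Set (EuclideanSpace ℝ (Fin m))) (c : EuclideanSpace ℝ (Fin m)) :
    volume {a : EuclideanSpace ℝ (Fin m) | a - c ∈ B} = volume B := by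
  have h := measure_preimage_add_right (volume : Measure (EuclideanSpace ℝ (Fin m))) (-c) B
  simp only [← sub_eq_add_neg] at h
  exact h

theorem GD1_norm {m : ℕ} (w : EuclideanSpace ℝ (Fin m)) : ‖((0, w) : EE m)‖ = ‖w‖ := by
  rw [Prod.norm_def]
  simp

theorem GD1_proof (hGZD : GZD_stmt) (hGZI : GZI_stmt) (hGZO : GZO_stmt) (hGSX : GSX_stmt) : GD1_stmt := by
  intro m H' C e C1 ν ρ0 hC he hH
  have hC1 := hH.hb.hC
  have hρ0 := hH.hb.hρ
  obtain ⟨eI, ρ1, CI, eI0, eI1, eI2, hρ1, hρ1', hCI, hI⟩ := hGZI C e C1 ρ0 hC he hC1 hρ0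
  obtain ⟨eO, ε1, CO, eO0, eO1, eO2, hε1, hCO, hCO', hO⟩ := hGZO C e C1 ρ0 hC he hC1 hρ0
  obtain ⟨eD, CD, eD0, eD1, eD2, hCD, hD⟩ := hGZD C e C1 ρ0 hC he hC1 hρ0
  refine ⟨ε1, min eI (min eO eD), hε1, lt_min eI0 (lt_min eO0 eD0), ?_⟩
  intro e3 ε' ε he3 he3' hε' _ hε hεε
  have l1 : e3 ≤ eI := he3'.trans (min_le_left _ _)
  have l2 : e3 ≤ eO := he3'.trans ((min_le_right _ _).trans (min_le_left _ _))
  have l3 : e3 ≤ eD := he3'.trans ((min_le_right _ _).trans (min_le_right _ _))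
  -- the radius
  obtain ⟨r, hr, hr1, hr2⟩ : ∃ r : ℝ, 0 < r ∧ r ≤ ρ1 ∧ CI * r ≤ ε' := by
    refine ⟨min ρ1 (ε' / CI), lt_min hρ1 (by positivity), min_le_left _ _, ?_⟩
    have h1 : min ρ1 (ε' / CI) ≤ ε' / CI := min_le_right _ _
    rw [le_div_iff₀ (by linarith)] at h1
    linarith
  have hrρ : r ≤ ρ0 := by linarith
  have hre : r ≤ e := by linarith
  have hCε : CO * ε ≤ ρ0 := by
    have h1 : CO * ε ≤ CO * ε1 := mul_le_mul_of_nonneg_left hεε (by linarith)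
    linarith
  obtain ⟨Ca, hCa, ha⟩ := hH.dsc r (CO * ε) hr hrρ (by positivity) hCε
  obtain ⟨Cb, hCb, hb⟩ := hGSX H' C1 ρ0 hH.hb r r hr hrρ hr hrρ
  refine ⟨max 1 (Ca * (Cb * (C⁻¹ * r)⁻¹)), le_max_left _ _, ?_⟩
  intro S _ μ d f H κ F τ hS hR z w T hw hT
  have hw0 : ‖((0, w) : EE m)‖ ≤ e3 / 2 := by rw [GD1_norm]; exact hw
  set a0 : EE m := (0, w) with ha0
  have hz := (hD μ d f H H' κ F τ hS hH.hb hR z a0 (by linarith)).2.2.1
  obtain ⟨hO1, hO2⟩ := hO μ d f H H' κ F τ hS hH.hb hR z a0 (by linarith) ⌊T⌋₊ ε hε.le hεε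
  have hI1 := hI μ d f H H' κ F τ hS hH.hb hR z a0 (by linarith) (⌊T⌋₊ + 1) r hr.le hr1
  have hn1 : ((⌊T⌋₊ : ℕ) : ℝ) ≤ T := Nat.floor_le hT
  have hn2 : T ≤ ((⌊T⌋₊ + 1 : ℕ) : ℝ) := by
    push_cast
    exact (Nat.lt_floor_add_one T).le
  generalize ⌊T⌋₊ = n at *
  -- step 1
  have s1 : {w' : EuclideanSpace ℝ (Fin m) | ‖w'‖ ≤ e3 ∧ κ z (0, w') ∈ BB d f T (κ z a0) ε} ⊆
      {w' : EuclideanSpace ℝ (Fin m) | w' - w ∈ {v : EuclideanSpace ℝ (Fin m) | ((0, v) : EE m) ∈ SB (orz f κ F z a0) n (CO * ε)}} := by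
    rintro w' ⟨h1, h2⟩
    have h3 := hO2 (0, w') (by rw [GD1_norm]; linarith) (GD1_BB d f (κ z a0) hn1 le_rfl h2)
    have h4 : ((0, w') : EE m) - a0 ∈ SB (orz f κ F z a0) n (CO * ε) := h3
    have h5 : ((0, w') : EE m) - a0 = (0, w' - w) := by
      rw [ha0, Prod.mk_sub_mk, sub_zero]
    rw [h5] at h4
    exact h4
  -- step 2
  have s2 := (ha n (orz f κ F z a0) (fun i _ => hz i)).1
  obtain ⟨-, s3, -⟩ := hb n 1 (orz f κ F z a0) (by norm_num) hz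
  obtain ⟨s4, -, -⟩ := hb (n + 1) 0 (orz f κ F z a0) (by norm_num) hz
  have hSZ : SZ f κ F z a0 (n + 1) r = {a : EE m | a - a0 ∈ SB (orz f κ F z a0) (n + 1) r} := rfl
  have s5 : volume (SZ f κ F z a0 (n + 1) r) = volume (SB (orz f κ F z a0) (n + 1) r) := by
    rw [hSZ]
    exact GD1_t1 _ _
  have s6 : SZ f κ F z a0 (n + 1) r ⊆ Metric.closedBall 0 e := by
    intro a h1
    have h2 : ‖itr (orz f κ F z a0) 0 (a - a0)‖ ≤ r := h1 0 (Nat.zero_le _)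
    have h3 : ‖a - a0‖ ≤ r := h2
    rw [mem_closedBall_zero_iff]
    have h4 : a = (a - a0) + a0 := (sub_add_cancel a a0).symm
    rw [h4]
    refine (norm_add_le _ _).trans ?_
    linarith
  have s7 : MeasurableSet (SZ f κ F z a0 (n + 1) r) := by
    rw [hSZ]
    exact (s4.preimage (continuous_id.sub continuous_const)).measurableSet
  have s8 := hS.sct.lem z _ r s6 s7 hr.le hre
  have s9 : μ (bxs f κ z (SZ f κ F z a0 (n + 1) r) r) ≤ μ (BB d f T (κ z a0) ε') :=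
    measure_mono (hI1.trans (GD1_BB d f (κ z a0) hn2 hr2))
  have hcr : 0 < C⁻¹ * r := by positivity
  have s10 : volume (SB (orz f κ F z a0) (n + 1) r) ≤ ENNReal.ofReal (C⁻¹ * r)⁻¹ * μ (BB d f T (κ z a0) ε') := by
    rw [s5] at s8
    rw [ENNReal.ofReal_inv_of_pos hcr, mul_comm, ← div_eq_mul_inv]
    rw [ENNReal.le_div_iff_mul_le (Or.inl (ENNReal.ofReal_pos.2 hcr).ne') (Or.inl ENNReal.ofReal_ne_top), mul_comm]
    exact s8.trans s9
  calc volume {w' : EuclideanSpace ℝ (Fin m) | ‖w'‖ ≤ e3 ∧ κ z (0, w') ∈ BB d f T (κ z a0) ε}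
      ≤ volume {v : EuclideanSpace ℝ (Fin m) | ((0, v) : EE m) ∈ SB (orz f κ F z a0) n (CO * ε)} := by
        refine (measure_mono s1).trans (le_of_eq ?_)
        exact GD1_t2 _ _
    _ ≤ ENNReal.ofReal Ca * volume (SB (orz f κ F z a0) n r) := s2
    _ ≤ ENNReal.ofReal Ca * (ENNReal.ofReal Cb * (ENNReal.ofReal (C⁻¹ * r)⁻¹ * μ (BB d f T (κ z a0) ε'))) := by
        gcongr
        refine s3.trans ?_
        gcongr
    _ = ENNReal.ofReal (Ca * (Cb * (C⁻¹ * r)⁻¹)) * μ (BB d f T (κ z a0) ε') := by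
        rw [ENNReal.ofReal_mul hCa.le, ENNReal.ofReal_mul hCb.le]
        ring
    _ ≤ ENNReal.ofReal (max 1 (Ca * (Cb * (C⁻¹ * r)⁻¹))) * μ (BB d f T (κ z a0) ε') := by
        gcongr
        exact le_max_right _ _

end

end Pool.Agent.VDG
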